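import Pool.Agent.H78.RC.Targets
import Pool.Agent.H87.QP.Targets2

/-!
# The smallest eigenvalue of the local correlation matrices for the class of the Möbius function
(MP_c59857_nt), statements

The same rows as in `Pool/Agent/H87/QP/Targets2.lean` for complex functions `f` bounded by one;
`FC f H q T n c` is the mean over the window `(n, n + T]` of `|∑ h ≤ H, c h f (m + q h)| ^ 2`.
-/

set_option autoImplicit false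

namespace Pool.Agent.H83.RC

open Finset Pool.Agent.H18.MR Pool.Agent.H93.DE Pool.Agent.H6.N4D Pool.Agent.H93
  Pool.Agent.H93.ES Pool.Agent.H28.NW Pool.Agent.H87.QP Pool.Agent.H83.LI Pool.Agent.H78.RC

/-- the smallest mean square of a filter of `ℓ²` norm one at the shifts `0, q, …, H q` on the
window `(n, n + L]` -/
noncomputable def pc (f : ℕ → ℂ) (H L q n : ℕ) : ℝ :=
  ⨅ c : {c : ℕ → ℂ // Flt H c}, FC f H q L n c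

/-- PBC. The basic properties of `pc`. -/
def T_PBC : Prop := ∀ (f : ℕ → ℂ) (H L q n : ℕ), (∀ n, ‖f n‖ ≤ 1) → 1 ≤ L →
  0 ≤ pc f H L q n ∧ pc f H L q n ≤ 1 ∧
  (∀ c : ℕ → ℂ, 1 ≤ ∑ h ∈ range (H + 1), ‖c h‖ ^ 2 → pc f H L q n ≤ FC f H q L n c) ∧
  ∀ δ : ℝ, 0 < δ → ∃ c : ℕ → ℂ, Flt H c ∧ FC f H q L n c ≤ pc f H L q n + δ

/-- MPC. The relations pass down to shorter windows. -/
def T_MPC : Prop := ∀ (f : ℕ → ℂ) (H L L' q n : ℕ), (∀ n, ‖f n‖ ≤ 1) → 1 ≤ L' → L' ≤ L →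
  (∑ u ∈ Ioc n (n + L), pc f H L' q u) / L ≤
    pc f H L q n + 2 * ((H : ℝ) + 1) ^ 2 * L' / L

/-- LPC. The same for the logarithmic means. -/
def T_LPC : Prop := ∀ (f : ℕ → ℂ) (H L L' q : ℕ) (X : Wn), (∀ n, ‖f n‖ ≤ 1) → 1 ≤ L' →
  L' ≤ L →
  wlg X (fun n => pc f H L' q n) ≤ wlg X (fun n => pc f H L q n) + 10 * (1 + Real.log L) +
    2 * ((H : ℝ) + 1) ^ 2 * L' / L * (1 + X.L)

/-- SF1C. Relations between the multiples of the primes of one level. -/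
def T_SF1C : Prop := ∀ (H D W₀ : ℕ) (c : ℝ), 0 < c → ∃ (Ls W₁ : ℕ) (X₀ : ℝ), 1 ≤ Ls ∧
  ∀ (X : Wn) (f : ℕ → ℂ), X₀ ≤ X.L → Cl D f →
  wlg X (fun n => pc f H Ls 1 n) ≤ c * X.L →
  ∃ w, W₀ ≤ w ∧ w ≤ W₁ ∧ ∑ q ∈ EB.QQ w, 1 / (q : ℝ) * wlg X (fun n => pc f H (2 ^ w) q n) ≤
    2 * c * (∑ q ∈ EB.QQ w, 1 / (q : ℝ)) * X.L

/-- SFOC. Relations between the multiples of the primes of one octave. -/
def T_SFOC : Prop := ∀ (H D m₀ : ℕ) (c : ℝ), 0 < c → ∃ (Ls W₁ : ℕ) (X₀ : ℝ), 1 ≤ Ls ∧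
  ∀ (X : Wn) (f : ℕ → ℂ), X₀ ≤ X.L → Cl D f →
  wlg X (fun n => pc f H Ls 1 n) ≤ c * X.L →
  ∃ m w : ℕ, m₀ ≤ m ∧ 2 * m ≤ w ∧ w ≤ W₁ ∧
    ∑ q ∈ oct m, wlg X (fun n => pc f H (2 ^ w) q n) ≤ 4 * c * (oct m).card * X.L

/-- RZBC. The deterministic end: a window on which, for the primes `q` of an octave in the mean,
there is a linear relation between the shifts by the multiples of `q`, is near to sums of
boundedly many exponentials on its short subwindows. -/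
def T_RZBC : Prop := ∀ (H : ℕ) (τ : ℝ), 0 < τ → ∃ R B m₀ : ℕ, 1 ≤ B ∧ ∀ m w : ℕ, m₀ ≤ m →
  2 * m ≤ w → ∀ f : ℕ → ℂ, (∀ n, ‖f n‖ ≤ 1) → ∀ c : ℕ → ℕ → ℂ,
  (∀ q, 1 ≤ ∑ h ∈ range (H + 1), ‖c q h‖ ^ 2) →
  ∀ n : ℕ, ∃ (b : ℕ → ℕ → ℂ) (β : ℕ → ℕ → ℝ), (∀ t r, ‖b t r‖ ≤ 1) ∧
  (∑ t ∈ range (2 ^ w), ds f R (B * 2 ^ m) (n + 1 + t) (b t) (β t)) / 2 ^ w ≤
    2 * ((∑ q ∈ oct m, FC f H q (2 ^ w) n (c q)) / (oct m).card) + τ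

end Pool.Agent.H83.RC
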