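import Pool.Agent.H83.RC.Targets
import Pool.Agent.H90.QP.LPS

/-!
# Row LPC: the relations pass down to shorter windows, logarithmic means (after helper90's row LPS)
-/

set_option autoImplicit false

namespace Pool.Agent.H83.RC

open Finset Pool.Agent.H93.EB Pool.Agent.H28.NW Pool.Agent.H87.QP Pool.Agent.H78.RC

theorem pf_LPC (hB : T_PBC) (hM : T_MPC) : T_LPC := by
  intro f H L L' q X hl h1 h2
  have hL : 1 ≤ L := h1.trans h2
  have h3 := Pool.Agent.H90.QP.shift_mean X L hL (fun n => pc f H L' q n)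
    (fun n => (hB f H L' q n hl h1).1) (fun n => (hB f H L' q n hl h1).2.1)
  have h4 : wlg X (fun n => (∑ u ∈ Ioc n (n + L), pc f H L' q u) / L) ≤
      wlg X (fun n => pc f H L q n + 2 * ((H : ℝ) + 1) ^ 2 * L' / L) :=
    wlg_mono fun n _ => hM f H L L' q n hl h1 h2
  rw [wlg_add, wlg_const X (2 * ((H : ℝ) + 1) ^ 2 * L' / L)] at h4
  have h5 : 2 * ((H : ℝ) + 1) ^ 2 * L' / L * wlg X (fun _ => 1) ≤
      2 * ((H : ℝ) + 1) ^ 2 * L' / L * (1 + X.L) :=
    mul_le_mul_of_nonneg_left (wlg_one_le X) (by positivity)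
  have h6 : 0 ≤ Real.log L := Real.log_nonneg (by exact_mod_cast hL)
  linarith

end Pool.Agent.H83.RC
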