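import Pool.Agent.H83.RC.Targets

/-!
# Row PBC: the basic properties of `pc` (after helper2's row PSB)
-/

set_option autoImplicit false

namespace Pool.Agent.H83.RC

open Finset Pool.Agent.H18.MR Pool.Agent.H93.DE Pool.Agent.H6.N4D Pool.Agent.H93
  Pool.Agent.H93.ES Pool.Agent.H28.NW Pool.Agent.H87.QP Pool.Agent.H83.LI Pool.Agent.H78.RC

theorem FC_nonneg (f : ℕ → ℂ) (H q L n : ℕ) (c : ℕ → ℂ) : 0 ≤ FC f H q L n c := by
  unfold FC
  exact div_nonneg (sum_nonneg fun _ _ => by positivity) (Nat.cast_nonneg _)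

theorem flt_one (H : ℕ) : Flt H (fun h => if h = 0 then 1 else 0) := by
  refine ⟨fun h => ?_, ?_⟩
  · by_cases h0 : h = 0 <;> simp [h0]
  · rw [sum_eq_single 0]
    · simp
    · intro b _ hb
      simp [hb]
    · intro h
      exact absurd (mem_range.2 (Nat.succ_pos H)) h

theorem FC_one (f : ℕ → ℂ) (H q L n : ℕ) (hf : ∀ n, ‖f n‖ ≤ 1) (hL : 1 ≤ L) :
    FC f H q L n (fun h => if h = 0 then 1 else 0) ≤ 1 := by
  unfold FC
  have hL0 : (0 : ℝ) < L := by exact_mod_cast hL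
  rw [div_le_one hL0]
  have h1 : ∀ m ∈ Ioc n (n + L),
      ‖∑ h ∈ range (H + 1), (if h = 0 then (1 : ℂ) else 0) * f (m + q * h)‖ ^ 2 ≤ (1 : ℝ) := by
    intro m _
    have h2 : ∑ h ∈ range (H + 1), (if h = 0 then (1 : ℂ) else 0) * f (m + q * h) = f m := by
      rw [sum_eq_single 0]
      · simp
      · intro b _ hb
        simp [hb]
      · intro h
        exact absurd (mem_range.2 (Nat.succ_pos H)) h
    rw [h2]
    exact pow_le_one₀ (norm_nonneg _) (hf m)
  refine (sum_le_sum h1).trans (le_of_eq ?_)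
  rw [sum_const, Nat.card_Ioc, Nat.add_sub_cancel_left, nsmul_eq_mul, mul_one]

theorem bdd (f : ℕ → ℂ) (H L q n : ℕ) :
    BddBelow (Set.range fun c : {c : ℕ → ℂ // Flt H c} => FC f H q L n c) := by
  refine ⟨0, ?_⟩
  rintro _ ⟨c, rfl⟩
  exact FC_nonneg f H q L n c

theorem pc_le_of_flt (f : ℕ → ℂ) (H L q n : ℕ) {c : ℕ → ℂ} (hc : Flt H c) :
    pc f H L q n ≤ FC f H q L n c := by
  unfold pc
  exact ciInf_le (bdd f H L q n) ⟨c, hc⟩

theorem pc_le (f : ℕ → ℂ) (H L q n : ℕ) {c : ℕ → ℂ}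
    (hc : 1 ≤ ∑ h ∈ range (H + 1), ‖c h‖ ^ 2) : pc f H L q n ≤ FC f H q L n c := by
  obtain ⟨M, hM⟩ : ∃ M : ℝ, M = √(∑ h ∈ range (H + 1), ‖c h‖ ^ 2) := ⟨_, rfl⟩
  have hMsq : M ^ 2 = ∑ h ∈ range (H + 1), ‖c h‖ ^ 2 := by
    rw [hM]
    exact Real.sq_sqrt (sum_nonneg fun _ _ => by positivity)
  have hM1 : 1 ≤ M := by
    rw [hM]
    exact Real.one_le_sqrt.2 hc
  have hM0 : 0 < M := lt_of_lt_of_le one_pos hM1
  have hnM : ‖(M : ℂ)‖ = M := by
    rw [Complex.norm_real, Real.norm_eq_abs, abs_of_pos hM0]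
  have hF : Flt H (fun h => if h ≤ H then c h / (M : ℂ) else 0) := by
    refine ⟨fun h => ?_, ?_⟩
    · by_cases hh : h ≤ H
      · simp only [if_pos hh]
        rw [norm_div, hnM, div_le_one hM0]
        refine le_of_sq_le_sq ?_ hM0.le
        rw [hMsq]
        exact single_le_sum (f := fun h => ‖c h‖ ^ 2) (fun _ _ => by positivity)
          (mem_range.2 (Nat.lt_succ_of_le hh))
      · simp only [if_neg hh, norm_zero]
        exact zero_le_one
    · have h1 : ∀ h ∈ range (H + 1), ‖(if h ≤ H then c h / (M : ℂ) else 0)‖ ^ 2 =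
          ‖c h‖ ^ 2 / M ^ 2 := by
        intro h hh
        rw [if_pos (Nat.lt_succ_iff.1 (mem_range.1 hh)), norm_div, hnM, div_pow]
      rw [sum_congr rfl h1, ← sum_div, ← hMsq]
      exact div_self (by positivity)
  refine (pc_le_of_flt f H L q n hF).trans ?_
  unfold FC
  refine div_le_div_of_nonneg_right (sum_le_sum fun m _ => ?_) (Nat.cast_nonneg _)
  have h2 : ∑ h ∈ range (H + 1), (if h ≤ H then c h / (M : ℂ) else 0) * f (m + q * h) =
      (∑ h ∈ range (H + 1), c h * f (m + q * h)) / (M : ℂ) := by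
    rw [sum_div]
    refine sum_congr rfl fun h hh => ?_
    rw [if_pos (Nat.lt_succ_iff.1 (mem_range.1 hh))]
    ring
  rw [h2, norm_div, hnM]
  refine pow_le_pow_left₀ (by positivity) ?_ 2
  exact div_le_self (norm_nonneg _) hM1

theorem pf_PBC : T_PBC := by
  intro f H L q n hf hL
  have : Nonempty {c : ℕ → ℂ // Flt H c} := ⟨⟨_, flt_one H⟩⟩
  refine ⟨?_, ?_, ?_, ?_⟩
  · unfold pc
    exact le_ciInf fun c => FC_nonneg f H q L n c
  · exact (pc_le_of_flt f H L q n (flt_one H)).trans (FC_one f H q L n hf hL)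
  · intro c hc
    exact pc_le f H L q n hc
  · intro δ hδ
    have h1 : (⨅ c : {c : ℕ → ℂ // Flt H c}, FC f H q L n c) < pc f H L q n + δ := by
      change pc f H L q n < _
      linarith
    obtain ⟨c, hc⟩ := exists_lt_of_ciInf_lt h1
    exact ⟨c.1, c.2, hc.le⟩

end Pool.Agent.H83.RC
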