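import Pool.Agent.H83.RC.Targets
import Pool.Agent.H93.RZ.RZF

/-!
# Row RZBC: the deterministic end in the notation of the class rows
-/

set_option autoImplicit false

namespace Pool.Agent.H83.RC

open Finset Pool.Agent.H18.MR Pool.Agent.H93.DE Pool.Agent.H6.N4D Pool.Agent.H93
  Pool.Agent.H93.ES Pool.Agent.H28.NW Pool.Agent.H87.QP Pool.Agent.H83.LI Pool.Agent.H78.RC

/-- a sum over the window, from the start -/
theorem sum_win (n T : ℕ) (g : ℕ → ℝ) :
    ∑ m ∈ Ioc n (n + T), g m = ∑ t ∈ range T, g (n + 1 + t) := by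
  rw [← Finset.sum_image (f := g) (g := fun t => n + 1 + t) (s := range T)
    (fun a _ b _ h => by simp only at h; omega)]
  refine sum_congr ?_ fun _ _ => rfl
  ext m
  simp only [mem_Ioc, mem_image, mem_range]
  constructor
  · intro h
    exact ⟨m - (n + 1), by omega, by omega⟩
  · rintro ⟨t, ht, rfl⟩
    omega

theorem pf_RZBC (hF : Pool.Agent.H87.QP.T_RZF) : T_RZBC := by
  intro H τ hτ
  obtain ⟨R, B, m₀, hB, hF⟩ := hF H τ hτ
  refine ⟨R, B, m₀, hB, fun m w hm hw f hf c hc n => ?_⟩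
  obtain ⟨b, β, hb, h⟩ := hF m w hm hw f hf c hc (n + 1)
  refine ⟨b, β, hb, ?_⟩
  have e1 : ∀ t, ds f R (B * 2 ^ m) (n + 1 + t) (b t) (β t) =
      (∑ h ∈ Icc 1 (B * 2 ^ m), ‖f (n + 1 + t + h) - ∑ r ∈ range R,
      b t r * Complex.exp (2 * Real.pi * Complex.I * (β t r * h))‖ ^ 2) / (B * 2 ^ m) := by
    intro t
    unfold ds
    push_cast
    rfl
  have e2 : ∀ q, FC f H q (2 ^ w) n (c q) = (∑ t ∈ range (2 ^ w),
      ‖∑ h ∈ range (H + 1), c q h * f (n + 1 + t + q * h)‖ ^ 2) / 2 ^ w := by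
    intro q
    unfold FC
    rw [sum_win n (2 ^ w) (fun m => ‖∑ h ∈ range (H + 1), c q h * f (m + q * h)‖ ^ 2)]
    push_cast
    rfl
  rw [sum_congr rfl fun t _ => e1 t, sum_congr rfl fun q _ => e2 q]
  exact h

end Pool.Agent.H83.RC
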