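import Pool.Agent.H83.RC.Targets

/-!
# Row SF1C: relations between the multiples of the primes of one level, the class of the Möbius
function (after helper92's row SF1)
-/

set_option autoImplicit false

namespace Pool.Agent.H83.RC

open Finset Pool.Agent.H18.MR Pool.Agent.H93.DE Pool.Agent.H6.N4D Pool.Agent.H93
  Pool.Agent.H93.ES Pool.Agent.H93.EB Pool.Agent.H28.NW Pool.Agent.H87.QP Pool.Agent.H83.LI
  Pool.Agent.H78.RC

/-- one prime, one window -/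
theorem sfc_point (hB : T_PBC) {f : ℕ → ℂ} {D H : ℕ} {C : ℝ} (hC : 0 < C) (hf : Cl D f)
    (hD : ∀ (q T n : ℕ) (c : ℕ → ℂ), q.Prime → D < q → q ≤ T → (∀ h, ‖c h‖ ≤ 1) →
      FC f H q T n c ≤ FC f H 1 (T / q) (n / q) c +
        C * (∑ k ∈ range (H + 1), ‖tc f q T k n‖ + (q : ℝ) / T + 1 / (q : ℝ)))
    {T q : ℕ} (n : ℕ) (hq : q.Prime) (hDq : D < q) (hqT : q ≤ T) {δ d : ℝ} (hδ : 0 < δ)
    (hd : 0 < d) :
    pc f H T q n ≤ pc f H (T / q) 1 (n / q) + d +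
      C * (∑ k ∈ range (H + 1), (δ + 1 / (4 * δ) * ‖tc f q T k n‖ ^ 2)) +
        C * ((q : ℝ) / T + 1 / (q : ℝ)) := by
  have hq1 : 1 ≤ q := hq.one_lt.le
  have hT1 : 1 ≤ T := hq1.trans hqT
  have hTq : 1 ≤ T / q := (Nat.one_le_div_iff hq1).2 hqT
  obtain ⟨c, hc1, hc2⟩ := (hB f H (T / q) 1 (n / q) hf.le hTq).2.2.2 d hd
  have h1 := (hB f H T q n hf.le hT1).2.2.1 c hc1.2.ge
  have h2 := hD q T n c hq hDq hqT hc1.1
  have h3 : ∑ k ∈ range (H + 1), ‖tc f q T k n‖ ≤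
      ∑ k ∈ range (H + 1), (δ + 1 / (4 * δ) * ‖tc f q T k n‖ ^ 2) := by
    refine sum_le_sum fun h _ => ?_
    have h6 : 0 ≤ (‖tc f q T h n‖ - 2 * δ) ^ 2 := sq_nonneg _
    have h8 : ‖tc f q T h n‖ * (4 * δ) ≤
        (δ + 1 / (4 * δ) * ‖tc f q T h n‖ ^ 2) * (4 * δ) := by
      have h9 : (δ + 1 / (4 * δ) * ‖tc f q T h n‖ ^ 2) * (4 * δ) =
          4 * δ ^ 2 + ‖tc f q T h n‖ ^ 2 := by
        field_simp
      rw [h9]
      nlinarith
    exact le_of_mul_le_mul_right h8 (by positivity)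
  have h4 : C * (∑ k ∈ range (H + 1), ‖tc f q T k n‖ + (q : ℝ) / T + 1 / (q : ℝ)) ≤
      C * (∑ k ∈ range (H + 1), (δ + 1 / (4 * δ) * ‖tc f q T k n‖ ^ 2)) +
        C * ((q : ℝ) / T + 1 / (q : ℝ)) := by
    rw [← mul_add]
    exact mul_le_mul_of_nonneg_left (by linarith) hC.le
  linarith

/-- one prime, logarithmic means -/
theorem sfc_prime (hB : T_PBC) (hM : T_LPC) {f : ℕ → ℂ} {D H : ℕ} {C : ℝ} (hC : 0 < C)
    (hf : Cl D f)
    (hD : ∀ (q T n : ℕ) (c : ℕ → ℂ), q.Prime → D < q → q ≤ T → (∀ h, ‖c h‖ ≤ 1) →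
      FC f H q T n c ≤ FC f H 1 (T / q) (n / q) c +
        C * (∑ k ∈ range (H + 1), ‖tc f q T k n‖ + (q : ℝ) / T + 1 / (q : ℝ)))
    {T q Ls : ℕ} (X : Wn) (hq : q.Prime) (hDq : D < q) (hqT : q ≤ T) (hTL : T ≤ Ls) {δ d : ℝ}
    (hδ : 0 < δ) (hd : 0 < d) :
    wlg X (fun n => pc f H T q n) ≤
      wlg X (fun n => pc f H Ls 1 n) + 10 * (1 + Real.log Ls) +
        2 * ((H : ℝ) + 1) ^ 2 * (T / Ls) * (1 + X.L) + 2 * (3 * hs q + 2) +
        (d * (1 + X.L) + C * δ * ((H : ℝ) + 1) * (1 + X.L) +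
          C / (4 * δ) * ∑ h ∈ range (H + 1), wlg X (fun n => ‖tc f q T h n‖ ^ 2)) +
        C * ((q : ℝ) / T + 1 / (q : ℝ)) * (1 + X.L) := by
  have hq1 : 1 ≤ q := hq.one_lt.le
  have hT1 : 1 ≤ T := hq1.trans hqT
  have hL1 : 1 ≤ Ls := hT1.trans hTL
  have hT0 : (0 : ℝ) < T := by exact_mod_cast hT1
  have hL0 : (0 : ℝ) < Ls := by exact_mod_cast hL1
  have hTq : 1 ≤ T / q := (Nat.one_le_div_iff hq1).2 hqT
  have hTqL : T / q ≤ Ls := (Nat.div_le_self _ _).trans hTL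
  have hX := X.L_nonneg
  obtain ⟨φ, hφ⟩ : ∃ φ : ℕ → ℝ, φ = fun n => pc f H (T / q) 1 n := ⟨_, rfl⟩
  have hφ0 : ∀ n, 0 ≤ φ n ∧ φ n ≤ 1 := by
    intro n
    rw [hφ]
    have := hB f H (T / q) 1 n hf.le hTq
    exact ⟨this.1, this.2.1⟩
  obtain ⟨A, hA⟩ : ∃ A : ℝ, A = (H : ℝ) + 1 := ⟨_, rfl⟩
  have hA0 : 0 < A := by rw [hA]; positivity
  obtain ⟨E, hE⟩ : ∃ E : ℝ, E = C * ((q : ℝ) / T + 1 / (q : ℝ)) := ⟨_, rfl⟩
  have hE0 : 0 ≤ E := by rw [hE]; positivity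
  have h1 : wlg X (fun n => pc f H T q n) ≤
      wlg X (fun n => (φ (n / q) + d + C * (∑ k ∈ range (H + 1),
        (δ + 1 / (4 * δ) * ‖tc f q T k n‖ ^ 2))) + E) := by
    refine wlg_mono fun n _ => ?_
    rw [hφ, hE]
    exact sfc_point hB hC hf hD n hq hDq hqT hδ hd
  have h2 : wlg X (fun n => (φ (n / q) + d + C * (∑ k ∈ range (H + 1),
        (δ + 1 / (4 * δ) * ‖tc f q T k n‖ ^ 2))) + E) =
      wlg X (fun n => φ (n / q)) + (d * wlg X (fun _ => 1) +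
        (C * δ * A * wlg X (fun _ => 1) +
        C / (4 * δ) * ∑ h ∈ range (H + 1), wlg X (fun n => ‖tc f q T h n‖ ^ 2))) +
        E * wlg X (fun _ => 1) := by
    rw [wlg_add X (fun n => φ (n / q) + d + C * (∑ k ∈ range (H + 1),
        (δ + 1 / (4 * δ) * ‖tc f q T k n‖ ^ 2))) (fun _ => E),
      wlg_add X (fun n => φ (n / q) + d)
        (fun n => C * (∑ k ∈ range (H + 1), (δ + 1 / (4 * δ) * ‖tc f q T k n‖ ^ 2))),
      wlg_add X (fun n => φ (n / q)) (fun _ => d), wlg_const X d,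
      wlg_const X E]
    have h3 : wlg X (fun n => C * ∑ h ∈ range (H + 1),
        (δ + 1 / (4 * δ) * ‖tc f q T h n‖ ^ 2)) =
        C * δ * A * wlg X (fun _ => 1) +
          C / (4 * δ) * ∑ h ∈ range (H + 1), wlg X (fun n => ‖tc f q T h n‖ ^ 2) := by
      rw [wlg_mul X C (fun n => ∑ h ∈ range (H + 1), (δ + 1 / (4 * δ) * ‖tc f q T h n‖ ^ 2)),
        wlg_sum X (range (H + 1)) (fun h n => δ + 1 / (4 * δ) * ‖tc f q T h n‖ ^ 2)]
      have h4 : ∀ h : ℕ, wlg X (fun n => δ + 1 / (4 * δ) * ‖tc f q T h n‖ ^ 2) =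
          δ * wlg X (fun _ => 1) + 1 / (4 * δ) * wlg X (fun n => ‖tc f q T h n‖ ^ 2) := by
        intro h
        rw [wlg_add X (fun _ => δ) (fun n => 1 / (4 * δ) * ‖tc f q T h n‖ ^ 2), wlg_const X δ,
          wlg_mul X (1 / (4 * δ)) (fun n => ‖tc f q T h n‖ ^ 2)]
      rw [sum_congr rfl fun h _ => h4 h, sum_add_distrib, sum_const, card_range, nsmul_eq_mul,
        ← mul_sum, hA]
      push_cast
      ring
    rw [h3]
    ring
  have h3 : wlg X (fun n => φ (n / q)) ≤ wlg X φ + 2 * (3 * hs q + 2) := by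
    have h4 := (abs_le.1 (wlg_div X q hq1 φ (c := 1) (fun n => by
      rw [abs_le]
      constructor <;> linarith [(hφ0 n).1, (hφ0 n).2]))).2
    linarith
  have h4 : wlg X φ ≤ wlg X (fun n => pc f H Ls 1 n) +
      10 * (1 + Real.log Ls) + 2 * A ^ 2 * (T / Ls) * (1 + X.L) := by
    have h5 := hM f H Ls (T / q) 1 X hf.le hTq hTqL
    rw [← hφ, ← hA] at h5
    have h7 : 2 * A ^ 2 * ((T / q : ℕ) : ℝ) / Ls * (1 + X.L) ≤
        2 * A ^ 2 * (T / Ls) * (1 + X.L) := by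
      apply mul_le_mul_of_nonneg_right _ (by linarith)
      rw [mul_div_assoc]
      apply mul_le_mul_of_nonneg_left _ (by positivity)
      apply div_le_div_of_nonneg_right _ hL0.le
      exact_mod_cast Nat.div_le_self T q
    linarith
  have h5 := wlg_one_le X
  have h6 : C * δ * A * wlg X (fun _ => 1) ≤ C * δ * A * (1 + X.L) :=
    mul_le_mul_of_nonneg_left h5 (by positivity)
  have h7 : E * wlg X (fun _ => 1) ≤ E * (1 + X.L) := mul_le_mul_of_nonneg_left h5 hE0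
  have h8 : d * wlg X (fun _ => 1) ≤ d * (1 + X.L) := mul_le_mul_of_nonneg_left h5 hd.le
  rw [← hA, ← hE]
  linarith

theorem pf_SF1C (hG : T_GLC) (hD : T_DLC) (hB : T_PBC) (hM : T_LPC) (hL : T_QLB)
    (hQ : T_QSU) : T_SF1C := by
  intro H D W₀ c hc
  obtain ⟨s₀, w₀, hs₀, hL⟩ := hL
  obtain ⟨W, hW, hQ⟩ := hQ
  obtain ⟨C, hC, hD⟩ := hD H
  obtain ⟨A, hA⟩ : ∃ A : ℝ, A = (H : ℝ) + 1 := ⟨_, rfl⟩
  have hA1 : 1 ≤ A := by
    rw [hA]
    have : (0 : ℝ) ≤ H := Nat.cast_nonneg H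
    linarith
  have hA0 : 0 < A := by linarith
  -- the constants
  obtain ⟨n₀, hn₀⟩ : ∃ n₀ : ℕ, 40 * C / c < (2 : ℝ) ^ n₀ :=
    pow_unbounded_of_one_lt _ (by norm_num)
  obtain ⟨M, hM0⟩ := exists_nat_gt (40 * A ^ 2 / c)
  have hM1 : (0 : ℝ) < M := lt_trans (by positivity) hM0
  obtain ⟨δ, hδd⟩ : ∃ δ : ℝ, δ = c / (20 * C * A) := ⟨_, rfl⟩
  have hδ : 0 < δ := by rw [hδd]; positivity
  obtain ⟨W₁, X₀, hG⟩ := hG H (max W₀ (max w₀ (400 * (n₀ + D)))) (c * s₀ * δ / (5 * C))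
    (by positivity)
  obtain ⟨Ls, hLs⟩ : ∃ Ls : ℕ, Ls = 2 ^ W₁ * M := ⟨_, rfl⟩
  have hMn : 1 ≤ M := by exact_mod_cast hM1
  have hLs1 : 1 ≤ Ls := by rw [hLs]; exact Nat.mul_pos (by positivity) hMn
  obtain ⟨K, hK⟩ : ∃ K : ℝ, K = 10 * (1 + Real.log Ls) + 2 * (3 * hs (2 ^ W₁) + 2) := ⟨_, rfl⟩
  refine ⟨Ls, W₁, max X₀ (2 * (K + c) / c), hLs1, ?_⟩
  intro X f hX hf hnear
  obtain ⟨w, hw1, hw2, hw3⟩ := hG X f ((le_max_left _ _).trans hX) hf.le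
  have hX2 : 2 * (K + c) / c ≤ X.L := (le_max_right _ _).trans hX
  have hX0 := X.L_nonneg
  refine ⟨w, (le_max_left _ _).trans hw1, hw2, ?_⟩
  have hww : w₀ ≤ w := ((le_max_left _ _).trans (le_max_right _ _)).trans hw1
  have hwn : 400 * (n₀ + D) ≤ w := ((le_max_right _ _).trans (le_max_right _ _)).trans hw1
  have hS := hL w hww
  obtain ⟨S, hSd⟩ : ∃ S : ℝ, S = ∑ q ∈ EB.QQ w, 1 / (q : ℝ) := ⟨_, rfl⟩
  rw [← hSd] at hS ⊢
  have hTL : 2 ^ w ≤ Ls := by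
    rw [hLs]
    exact (Nat.pow_le_pow_right (by norm_num) hw2).trans (Nat.le_mul_of_pos_right _ hMn)
  have hLs0 : (0 : ℝ) < Ls := by exact_mod_cast hLs1
  -- the small quantities
  have e1 : 2 * A ^ 2 * (((2 ^ w : ℕ) : ℝ) / Ls) ≤ c / 20 := by
    have h1 : (((2 ^ w : ℕ) : ℝ)) ≤ 2 ^ W₁ := by
      exact_mod_cast Nat.pow_le_pow_right (by norm_num) hw2
    have h2 : ((Ls : ℕ) : ℝ) = 2 ^ W₁ * M := by rw [hLs]; push_cast; rfl
    have h3 : ((2 ^ w : ℕ) : ℝ) / Ls ≤ 1 / M := by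
      rw [div_le_div_iff₀ hLs0 hM1, h2, one_mul]
      exact mul_le_mul_of_nonneg_right h1 hM1.le
    have h4 : 2 * A ^ 2 * (1 / (M : ℝ)) ≤ c / 20 := by
      rw [mul_one_div, div_le_div_iff₀ hM1 (by norm_num)]
      rw [div_lt_iff₀ hc] at hM0
      linarith
    exact (mul_le_mul_of_nonneg_left h3 (by positivity)).trans h4
  have hcn : C * (1 / (2 : ℝ) ^ n₀) ≤ c / 40 := by
    rw [mul_one_div, div_le_div_iff₀ (by positivity) (by norm_num)]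
    rw [div_lt_iff₀ hc] at hn₀
    linarith
  have hbig : ∀ q ∈ EB.QQ w, 2 ^ (n₀ + D) < q := by
    intro q hq
    have hq0 : 2 ^ (w / 400) < q := (mem_Ioc.1 (mem_filter.1 hq).1).1
    refine lt_of_le_of_lt (Nat.pow_le_pow_right (by norm_num) ?_) hq0
    rw [Nat.le_div_iff_mul_le (by norm_num)]
    omega
  have hDq : ∀ q ∈ EB.QQ w, D < q := by
    intro q hq
    refine lt_trans ?_ (hbig q hq)
    calc D ≤ n₀ + D := Nat.le_add_left _ _
      _ < 2 ^ (n₀ + D) := Nat.lt_two_pow_self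
  have e2 : ∀ q ∈ EB.QQ w, C * ((q : ℝ) / ((2 ^ w : ℕ) : ℝ) + 1 / (q : ℝ)) ≤ c / 20 := by
    intro q hq
    have hq1 : q ≤ 2 ^ (w / 200) := (mem_Ioc.1 (mem_filter.1 hq).1).2
    have h2n : (0 : ℝ) < 2 ^ n₀ := by positivity
    have hT0 : (0 : ℝ) < ((2 ^ w : ℕ) : ℝ) := by positivity
    have hq2 : (2 : ℝ) ^ n₀ ≤ q := by
      have h2 : 2 ^ n₀ ≤ q :=
        (Nat.pow_le_pow_right (by norm_num) (Nat.le_add_right _ _)).trans (hbig q hq).le
      exact_mod_cast h2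
    have hq3 : (0 : ℝ) < q := lt_of_lt_of_le h2n hq2
    have h1 : (2 : ℝ) ^ n₀ * q ≤ ((2 ^ w : ℕ) : ℝ) := by
      have h2 : 2 ^ n₀ * q ≤ 2 ^ w := by
        refine (Nat.mul_le_mul_left _ hq1).trans ?_
        rw [← pow_add]
        exact Nat.pow_le_pow_right (by norm_num) (by omega)
      exact_mod_cast h2
    have h3 : (q : ℝ) / ((2 ^ w : ℕ) : ℝ) ≤ 1 / 2 ^ n₀ := by
      rw [div_le_div_iff₀ hT0 h2n]
      linarith
    have h4 : 1 / (q : ℝ) ≤ 1 / 2 ^ n₀ := one_div_le_one_div_of_le h2n hq2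
    calc C * ((q : ℝ) / ((2 ^ w : ℕ) : ℝ) + 1 / (q : ℝ))
        ≤ C * (1 / 2 ^ n₀ + 1 / 2 ^ n₀) :=
          mul_le_mul_of_nonneg_left (add_le_add h3 h4) hC.le
      _ ≤ c / 20 := by
          rw [mul_add]
          linarith
  have e3 : C * δ * A ≤ c / 20 := by
    rw [hδd]
    apply le_of_eq
    field_simp
  have e4 : C / (4 * δ) * (c * s₀ * δ / (5 * C) * X.L) = c * s₀ / 20 * X.L := by
    field_simp
    ring
  have hd : 0 < c / 20 := by positivity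
  -- one prime
  have hone : ∀ q ∈ EB.QQ w, wlg X (fun n => pc f H (2 ^ w) q n) ≤
      c * X.L + K + 4 * (c / 20) * (1 + X.L) +
        C / (4 * δ) * ∑ h ∈ range (H + 1), wlg X (fun n => ‖tc f q (2 ^ w) h n‖ ^ 2) := by
    intro q hq
    have hqm := mem_filter.1 hq
    have hq1 : q ≤ 2 ^ (w / 200) := (mem_Ioc.1 hqm.1).2
    have hqw : q ≤ 2 ^ w := hq1.trans (Nat.pow_le_pow_right (by norm_num) (Nat.div_le_self _ _))
    have h1 := sfc_prime hB hM hC hf (hD D f · · · · hf) X hqm.2 (hDq q hq) hqw hTL hδ hd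
    have h2 : hs q ≤ hs (2 ^ W₁) := hs_mono (hqw.trans (Nat.pow_le_pow_right (by norm_num) hw2))
    have hX1 : 0 ≤ 1 + X.L := by linarith
    have h3 := mul_le_mul_of_nonneg_right e1 hX1
    have h4 := mul_le_mul_of_nonneg_right (e2 q hq) hX1
    have h5 := mul_le_mul_of_nonneg_right e3 hX1
    rw [← hA] at h1
    rw [hK]
    linarith
  calc ∑ q ∈ EB.QQ w, 1 / (q : ℝ) * wlg X (fun n => pc f H (2 ^ w) q n)
      ≤ ∑ q ∈ EB.QQ w, 1 / (q : ℝ) * (c * X.L + K + 4 * (c / 20) * (1 + X.L) +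
        C / (4 * δ) * ∑ h ∈ range (H + 1), wlg X (fun n => ‖tc f q (2 ^ w) h n‖ ^ 2)) :=
        sum_le_sum fun q hq => mul_le_mul_of_nonneg_left (hone q hq) (by positivity)
    _ = (c * X.L + K + 4 * (c / 20) * (1 + X.L)) * S +
        C / (4 * δ) * ∑ h ∈ range (H + 1), wlg X (fun n => ∑ q ∈ EB.QQ w, 1 / (q : ℝ) *
          ‖tc f q (2 ^ w) h n‖ ^ 2) := by
        have h1 : ∀ h : ℕ, wlg X (fun n => ∑ q ∈ EB.QQ w, 1 / (q : ℝ) *
            ‖tc f q (2 ^ w) h n‖ ^ 2) = ∑ q ∈ EB.QQ w, 1 / (q : ℝ) *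
              wlg X (fun n => ‖tc f q (2 ^ w) h n‖ ^ 2) := by
          intro h
          rw [wlg_sum X (EB.QQ w) (fun q n => 1 / (q : ℝ) * ‖tc f q (2 ^ w) h n‖ ^ 2)]
          exact sum_congr rfl fun q _ =>
            wlg_mul X (1 / (q : ℝ)) (fun n => ‖tc f q (2 ^ w) h n‖ ^ 2)
        rw [sum_congr rfl fun h _ => h1 h, sum_comm, hSd, mul_sum, mul_sum, ← sum_add_distrib]
        refine sum_congr rfl fun q _ => ?_
        rw [mul_add, mul_left_comm, mul_sum]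
        ring
    _ ≤ (c * X.L + K + 4 * (c / 20) * (1 + X.L)) * S + c * s₀ / 20 * X.L := by
        rw [← e4]
        have h1 := mul_le_mul_of_nonneg_left hw3 (by positivity : 0 ≤ C / (4 * δ))
        linarith
    _ ≤ 2 * c * S * X.L := by
        have h1 : c * s₀ / 20 * X.L ≤ c / 20 * X.L * S := by
          have h2 := mul_le_mul_of_nonneg_left hS (by positivity : 0 ≤ c / 20 * X.L)
          linarith
        have hS0 : 0 ≤ S := hs₀.le.trans hS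
        have h2 : K + c ≤ c * X.L / 2 := by
          rw [div_le_iff₀ hc] at hX2
          linarith
        have h3 : K + 4 * (c / 20) * (1 + X.L) + c / 20 * X.L ≤ c * X.L := by
          have h4 : 0 ≤ c * X.L := mul_nonneg hc.le hX0
          linarith
        have h4 := mul_le_mul_of_nonneg_right h3 hS0
        linarith

end Pool.Agent.H83.RC
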