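import Pool.Agent.H87.QP.All1
import Pool.Agent.H87.QP.BKH
import Pool.Agent.H78.RC.GLC
import Pool.Agent.H3.RC.DLC
import Pool.Agent.H2.QP.MPC
import Pool.Agent.H19.RC.SFOC
import Pool.Agent.H19.RC.RZC
import Pool.Agent.H24.RC.GHC
import Pool.Agent.H83.RC.PBC
import Pool.Agent.H83.RC.LPC
import Pool.Agent.H83.RC.SF1C
import Pool.Agent.H83.RC.RZBC

/-!
# Theorem (RZ) for the class of the Möbius function (MP_c59857_nt): all rows, closed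
-/

set_option autoImplicit false

namespace Pool.Agent.H83.RC.All

open Pool.Agent.H87.QP.All Pool.Agent.H6.TP.Es Pool.Agent.H83.RC

theorem aBKH : Pool.Agent.H87.QP.T_BKH := Pool.Agent.H87.QP.pf_BKH aCYH aWIH tQSU
theorem aEBH : Pool.Agent.H87.QP.T_EBH :=
  Pool.Agent.H3.QP.pf_EBH aBKH Pool.Agent.H36.NW.BLU.pf_BLU tQSU
theorem aGLV : Pool.Agent.H87.QP.T_GLV := Pool.Agent.H3.QP.pf_GLV aEBH
theorem aEBR : Pool.Agent.H78.RC.T_EBR := Pool.Agent.H78.RC.pf_EBR aEBH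
theorem aEBC : Pool.Agent.H78.RC.T_EBC := Pool.Agent.H78.RC.pf_EBC aEBR
theorem aGLC : Pool.Agent.H78.RC.T_GLC := Pool.Agent.H78.RC.pf_GLC aEBC
theorem aDLC : Pool.Agent.H78.RC.T_DLC := Pool.Agent.H3.RC.pf_DLC
theorem aPBC : T_PBC := pf_PBC
theorem aMPC : T_MPC := Pool.Agent.H2.QP.pf_MPC
theorem aLPC : T_LPC := pf_LPC aPBC aMPC
theorem aSF1C : T_SF1C := pf_SF1C aGLC aDLC aPBC aLPC aQLB tQSU
theorem aSFOC : T_SFOC := Pool.Agent.H19.RC.pf_SFOC aSF1C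
theorem aRZBC : T_RZBC := pf_RZBC Pool.Agent.H93.RZ.pf_RZF
theorem aGHC : Pool.Agent.H78.RC.T_GHC := Pool.Agent.H24.RC.aGHC

/-- theorem (RZ) for the class of the Möbius function -/
theorem aRZC : Pool.Agent.H78.RC.T_RZC :=
  Pool.Agent.H19.RC.pf_RZC aGHC aRZBC aSFOC aLPC aPBC

end Pool.Agent.H83.RC.All
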